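import Pool.Agent.MP_e5f6e8_al.G2.Ref
import Pool.Agent.MP_e5f6e8_al.G2.Tch
import Pool.Agent.MP_e5f6e8_al.G2.Rf

set_option autoImplicit false

namespace Pool.Agent.Results.MP_e5f6e8_al.GenusTwo

open Pool.Agent.E5f Pool.Agent.E5f.G2

/-- There are `h ≥ 2` and a finitely generated group whose word metric satisfies the four-point
condition, with a normal subgroup isomorphic to the genus two surface group and quotient
isomorphic to the genus `h` surface group. -/
theorem result :
    ∃ h : ℕ, 2 ≤ h ∧ ∃ (n : ℕ) (rels : Set (FreeGroup (Fin n))),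
      ∃ (i : PresentedGroup ({(List.ofFn (fun k : Fin 2 =>
              (FreeGroup.of (Sum.inl k) * FreeGroup.of (Sum.inr k) *
                (FreeGroup.of (Sum.inl k))⁻¹ * (FreeGroup.of (Sum.inr k))⁻¹ :
                FreeGroup (Fin 2 ⊕ Fin 2)))).prod} :
              Set (FreeGroup (Fin 2 ⊕ Fin 2))) →* PresentedGroup rels)
        (p : PresentedGroup rels →* PresentedGroup ({(List.ofFn (fun k : Fin h =>
              (FreeGroup.of (Sum.inl k) * FreeGroup.of (Sum.inr k) *
                (FreeGroup.of (Sum.inl k))⁻¹ * (FreeGroup.of (Sum.inr k))⁻¹ :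
                FreeGroup (Fin h ⊕ Fin h)))).prod} :
              Set (FreeGroup (Fin h ⊕ Fin h)))),
        Function.Injective i ∧ Function.Surjective p ∧ i.range = p.ker ∧
        ∃ δ : ℕ, ∀ x y z w : PresentedGroup rels,
          sInf {m : ℕ | ∃ l : List (Fin n × Bool), l.length = m ∧
              (l.map (fun e : Fin n × Bool => if e.2 = true
                then (PresentedGroup.of e.1 : PresentedGroup rels)
                else (PresentedGroup.of e.1 : PresentedGroup rels)⁻¹)).prod = x⁻¹ * y}
          + sInf {m : ℕ | ∃ l : List (Fin n × Bool), l.length = m ∧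
              (l.map (fun e : Fin n × Bool => if e.2 = true
                then (PresentedGroup.of e.1 : PresentedGroup rels)
                else (PresentedGroup.of e.1 : PresentedGroup rels)⁻¹)).prod = z⁻¹ * w}
          ≤ max
            (sInf {m : ℕ | ∃ l : List (Fin n × Bool), l.length = m ∧
              (l.map (fun e : Fin n × Bool => if e.2 = true
                then (PresentedGroup.of e.1 : PresentedGroup rels)
                else (PresentedGroup.of e.1 : PresentedGroup rels)⁻¹)).prod = x⁻¹ * z}
            + sInf {m : ℕ | ∃ l : List (Fin n × Bool), l.length = m ∧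
              (l.map (fun e : Fin n × Bool => if e.2 = true
                then (PresentedGroup.of e.1 : PresentedGroup rels)
                else (PresentedGroup.of e.1 : PresentedGroup rels)⁻¹)).prod = y⁻¹ * w})
            (sInf {m : ℕ | ∃ l : List (Fin n × Bool), l.length = m ∧
              (l.map (fun e : Fin n × Bool => if e.2 = true
                then (PresentedGroup.of e.1 : PresentedGroup rels)
                else (PresentedGroup.of e.1 : PresentedGroup rels)⁻¹)).prod = x⁻¹ * w}
            + sInf {m : ℕ | ∃ l : List (Fin n × Bool), l.length = m ∧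
              (l.map (fun e : Fin n × Bool => if e.2 = true
                then (PresentedGroup.of e.1 : PresentedGroup rels)
                else (PresentedGroup.of e.1 : PresentedGroup rels)⁻¹)).prod = y⁻¹ * z})
          + 2 * δ := by
  obtain ⟨h0, hh, G, _, n0, s, i0, p0, h1, h2, h3, h4, h5⟩ :=
    G2.main_group (s_t3 s_t1 (s_te s_sb s_oa) (s_to s_sb) (s_tm s_sb)) s_j1 (s_jj s_j1)
      (s_j2 s_j1) s_j3 (s_r3 s_j1 (s_jj s_j1)) s_k
  obtain ⟨rels, e, he⟩ := exists_equiv_FinPack s h1
  obtain ⟨δ, hδ⟩ := h2
  refine ⟨h0, hh, n0, rels, e.symm.toMonoidHom.comp i0, p0.comp e.toMonoidHom,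
    e.symm.injective.comp h3, h4.comp e.surjective, ?_, δ, fun x y z w => ?_⟩
  · ext x
    rw [MonoidHom.mem_ker, MonoidHom.comp_apply, ← MonoidHom.mem_ker, ← h5]
    exact ⟨fun ⟨a, ha⟩ => ⟨a, e.symm_apply_eq.1 ha⟩, fun ⟨a, ha⟩ => ⟨a, e.symm_apply_eq.2 ha⟩⟩
  · have h6 : ∀ a b : PresentedGroup rels, wl s ((e a)⁻¹ * e b) =
        wl (PresentedGroup.of : Fin n0 → PresentedGroup rels) (a⁻¹ * b) := fun a b => by
      rw [wl_equiv_FinPack e, map_mul, map_inv, funext he]
    have h7 := hδ (e x) (e y) (e z) (e w)
    simp only [h6] at h7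
    exact h7

end Pool.Agent.Results.MP_e5f6e8_al.GenusTwo
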